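import Pool.Agent.Q78.WI.Stm

set_option autoImplicit false

/-!
Project WI (helper78), statement `S_C3`: derivative of the Gram matrix.
-/

open MeasureTheory Filter Topology Set
open scoped InnerProductSpace

namespace Pool.Agent.Q259.WI

open Pool.Agent.Q78.WI

universe u v

theorem c3 : S_C3.{u} := by
  intro H _ _ _ T hT Q d g s hs i j
  set f : ℝ → ℝ := fun v => ⟪Q (T v (g i)), T v (g j)⟫_ℝ with hf
  set F : ℝ → ℝ := fun v => f (max v 0) with hF
  have hfc : ContinuousOn f (Ici 0) := by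
    refine ContinuousOn.inner ?_ (hT.cont (g j))
    exact Q.continuous.comp_continuousOn (hT.cont (g i))
  have hFc : Continuous F := by
    rw [← continuousOn_univ]
    exact hfc.comp (continuous_id.max continuous_const).continuousOn fun v _ => mem_Ici.2 (le_max_right _ _)
  have hFf : ∀ v, 0 ≤ v → F v = f v := fun v hv => by
    rw [hF]
    simp only [max_eq_left hv]
  have hint : ∀ r : ℝ, 0 ≤ r → ∫ v in (0 : ℝ)..r, f v = ∫ v in (0 : ℝ)..r, F v := by
    intro r hr
    refine intervalIntegral.integral_congr fun v hv => ?_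
    rw [uIcc_of_le hr] at hv
    exact (hFf v hv.1).symm
  have hd : HasDerivAt (fun r : ℝ => ∫ v in (0 : ℝ)..r, F v) (F (1 - s)) (1 - s) :=
    hFc.integral_hasStrictDerivAt 0 (1 - s) |>.hasDerivAt
  have hd1 : HasDerivAt (fun s : ℝ => 1 - s) (-1) s := by
    simpa using (hasDerivAt_id s).const_sub 1
  have hd2 := hd.comp s hd1
  have hd3 : HasDerivAt (fun s : ℝ => 2 * ∫ v in (0 : ℝ)..(1 - s), F v) (2 * (F (1 - s) * -1)) s :=
    hd2.const_mul 2
  have hs0 : 0 ≤ 1 - s := by linarith [hs.2]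
  have hgoal : -(2 * ⟪Q (T (1 - s) (g i)), T (1 - s) (g j)⟫_ℝ) = 2 * (F (1 - s) * -1) := by
    rw [hFf _ hs0]
    ring
  rw [hgoal]
  refine hd3.hasDerivWithinAt.congr (fun r hr => ?_) ?_
  · have hr0 : 0 ≤ 1 - r := by linarith [hr.2]
    show 2 * ∫ v in (0 : ℝ)..(1 - r), f v = 2 * ∫ v in (0 : ℝ)..(1 - r), F v
    rw [hint _ hr0]
  · show 2 * ∫ v in (0 : ℝ)..(1 - s), f v = 2 * ∫ v in (0 : ℝ)..(1 - s), F v
    rw [hint _ hs0]

end Pool.Agent.Q259.WI
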